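import Pool.Agent.K1H88.GT.Stm

/-!
Project GT, piece MOMT: the second moment over `t` of the correlations of `μ(n) n^{it}`.
-/

set_option autoImplicit false

namespace Pool.Agent.K1H3.GT

open Finset MeasureTheory Pool.Agent.K1H88.GT

/-- the sum of exponentials -/
noncomputable def ES {ι : Type} (P : Finset ι) (c l : ι → ℝ) (t : ℝ) : ℂ :=
  ∑ p ∈ P, (c p : ℂ) * Complex.exp ((t * l p : ℝ) * Complex.I)

lemma normsq {ι : Type} (P : Finset ι) (c l : ι → ℝ) (t : ℝ) :
    ‖ES P c l t‖ ^ 2 = ∑ q ∈ P ×ˢ P, c q.1 * c q.2 * Real.cos (t * (l q.1 - l q.2)) := by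
  have hre : (ES P c l t).re = ∑ p ∈ P, c p * Real.cos (t * l p) := by
    unfold ES
    rw [Complex.re_sum]
    apply Finset.sum_congr rfl
    intro p _
    rw [Complex.re_ofReal_mul, Complex.exp_ofReal_mul_I_re]
  have him : (ES P c l t).im = ∑ p ∈ P, c p * Real.sin (t * l p) := by
    unfold ES
    rw [Complex.im_sum]
    apply Finset.sum_congr rfl
    intro p _
    rw [Complex.im_ofReal_mul, Complex.exp_ofReal_mul_I_im]
  rw [Complex.sq_norm, Complex.normSq_apply, hre, him, Finset.sum_mul_sum, Finset.sum_mul_sum,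
    ← Finset.sum_add_distrib, Finset.sum_product]
  apply Finset.sum_congr rfl
  intro p _
  rw [← Finset.sum_add_distrib]
  apply Finset.sum_congr rfl
  intro q _
  rw [show t * (l p - l q) = t * l p - t * l q by ring, Real.cos_sub]
  ring

lemma int_cos (T δ : ℝ) (hδ : δ ≠ 0) : |∫ t in T..2 * T, Real.cos (t * δ)| ≤ 2 / |δ| := by
  rw [intervalIntegral.integral_comp_mul_right (fun x => Real.cos x) hδ, integral_cos, smul_eq_mul,
    abs_mul, abs_inv, div_eq_mul_inv, mul_comm]
  apply mul_le_mul_of_nonneg_right _ (by positivity)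
  have h1 := abs_sub (Real.sin (2 * T * δ)) (Real.sin (T * δ))
  have h2 := Real.abs_sin_le_one (2 * T * δ)
  have h3 := Real.abs_sin_le_one (T * δ)
  linarith

lemma int_normsq {ι : Type} (P : Finset ι) (c l : ι → ℝ) (hc : ∀ p ∈ P, |c p| ≤ 1) (T : ℝ)
    (B : ι × ι → ℝ)
    (hB : ∀ q ∈ P ×ˢ P, |∫ t in T..2 * T, Real.cos (t * (l q.1 - l q.2))| ≤ B q) :
    ∫ t in T..2 * T, ‖ES P c l t‖ ^ 2 ≤ ∑ q ∈ P ×ˢ P, B q := by
  simp only [normsq]
  rw [intervalIntegral.integral_finsetSum]
  · apply Finset.sum_le_sum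
    intro q hq
    rw [intervalIntegral.integral_const_mul]
    refine (le_abs_self _).trans ?_
    rw [abs_mul, abs_mul]
    have h1 := hB q hq
    have h2 := hc q.1 (Finset.mem_product.1 hq).1
    have h3 := hc q.2 (Finset.mem_product.1 hq).2
    have h4 : |c q.1| * |c q.2| ≤ 1 := mul_le_one₀ h2 (abs_nonneg _) h3
    calc |c q.1| * |c q.2| * |∫ t in T..2 * T, Real.cos (t * (l q.1 - l q.2))|
        ≤ 1 * |∫ t in T..2 * T, Real.cos (t * (l q.1 - l q.2))| :=
          mul_le_mul_of_nonneg_right h4 (abs_nonneg _)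
      _ ≤ B q := by rw [one_mul]; exact h1
  · intro q _
    apply Continuous.intervalIntegrable
    fun_prop

lemma ta_eq (t : ℝ) {n : ℕ} (hn : 1 ≤ n) :
    ta t n = (((ArithmeticFunction.moebius n : ℤ) : ℝ) : ℂ) *
      Complex.exp ((t * Real.log n : ℝ) * Complex.I) := by
  unfold ta
  have h0 : (n : ℂ) ≠ 0 := by
    exact_mod_cast (show n ≠ 0 by omega)
  rw [Complex.cpow_def_of_ne_zero h0, ← Complex.natCast_log]
  push_cast
  congr 2
  ring

lemma conj_ta_eq (t : ℝ) {n : ℕ} (hn : 1 ≤ n) :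
    (starRingEnd ℂ) (ta t n) = (((ArithmeticFunction.moebius n : ℤ) : ℝ) : ℂ) *
      Complex.exp ((t * (-Real.log n) : ℝ) * Complex.I) := by
  rw [ta_eq t hn, map_mul, ← Complex.exp_conj, map_mul, Complex.conj_I, Complex.conj_ofReal,
    Complex.conj_ofReal]
  congr 2
  push_cast
  ring

/-- the coefficients -/
noncomputable def cf (p : ℕ × ℕ) : ℝ :=
  ((ArithmeticFunction.moebius p.1 : ℤ) : ℝ) * ((ArithmeticFunction.moebius (p.1 - p.2) : ℤ) : ℝ)

/-- the frequencies -/
noncomputable def fr (p : ℕ × ℕ) : ℝ := Real.log ((p.1 - p.2 : ℕ) : ℝ) - Real.log (p.1 : ℝ)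

lemma ZZ_eq (t : ℝ) (U1 U2 j : ℕ) :
    ZZ (ta t) U1 U2 j = ES (Ioc (U1 + j) (U2 + j) ×ˢ Icc 1 j) cf fr t := by
  unfold ZZ DD ES
  rw [Finset.sum_product]
  refine Finset.sum_nbij' (fun u => u + j + 1) (fun m => m - j - 1) ?_ ?_ ?_ ?_ ?_
  · intro u hu
    simp only [Finset.mem_Ico, Finset.mem_Ioc] at hu ⊢
    omega
  · intro u hu
    simp only [Finset.mem_Ico, Finset.mem_Ioc] at hu ⊢
    omega
  · intro u hu
    simp only [Finset.mem_Ico] at hu
    omega
  · intro u hu
    simp only [Finset.mem_Ioc] at hu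
    omega
  · intro u hu
    rw [Finset.mul_sum]
    refine Finset.sum_nbij' (fun n => u + j + 1 - n) (fun h => u + j + 1 - h) ?_ ?_ ?_ ?_ ?_
    · intro n hn
      simp only [Finset.mem_Icc, Finset.mem_Ioc] at hn ⊢
      omega
    · intro n hn
      simp only [Finset.mem_Icc, Finset.mem_Ioc] at hn ⊢
      omega
    · intro n hn
      simp only [Finset.mem_Ioc] at hn
      omega
    · intro n hn
      simp only [Finset.mem_Icc] at hn
      omega
    · intro n hn
      simp only [Finset.mem_Ioc] at hn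
      have e : u + j + 1 - (u + j + 1 - n) = n := by omega
      rw [conj_ta_eq t (by omega), ta_eq t (show 1 ≤ n by omega)]
      unfold cf fr
      simp only [e]
      rw [show ∀ a b c d : ℂ, a * b * (c * d) = (a * c) * (b * d) by intros; ring, ← Complex.exp_add]
      push_cast
      congr 2
      ring

lemma mu_le (n : ℕ) : |((ArithmeticFunction.moebius n : ℤ) : ℝ)| ≤ 1 := by
  have := ArithmeticFunction.abs_moebius_le_one (n := n)
  exact_mod_cast this

lemma log_diff {x y M : ℝ} (hx : 0 < x) (hy : 0 < y) (hxM : x ≤ M) (hyM : y ≤ M) :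
    |x - y| / M ≤ |Real.log x - Real.log y| := by
  have hM : 0 < M := hx.trans_le hxM
  wlog h : y ≤ x generalizing x y
  · have := this hy hx hyM hxM (le_of_not_ge h)
    rwa [abs_sub_comm, abs_sub_comm (Real.log y)] at this
  rw [abs_of_nonneg (sub_nonneg.2 h), abs_of_nonneg (sub_nonneg.2 (Real.log_le_log hy h))]
  have h1 : Real.log (y / x) ≤ y / x - 1 := Real.log_le_sub_one_of_pos (by positivity)
  rw [Real.log_div hy.ne' hx.ne'] at h1
  have h2 : (x - y) / M ≤ (x - y) / x := by
    apply div_le_div_of_nonneg_left (by linarith) hx hxM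
  have h3 : (x - y) / x = 1 - y / x := by
    field_simp
  linarith

theorem t_MOMT : S_MOMT := by
  intro T U1 U2 j hT
  classical
  simp only [ZZ_eq]
  set P : Finset (ℕ × ℕ) := Ioc (U1 + j) (U2 + j) ×ˢ Icc 1 j with hP
  have hquad : quad (U1 + j) (U2 + j) j = P ×ˢ P := rfl
  let B : (ℕ × ℕ) × (ℕ × ℕ) → ℝ := fun p =>
    if det p = 0 then T else 2 * ((U2 : ℝ) + j) ^ 2 * (1 / |(det p : ℝ)|)
  have key := int_normsq P cf fr (fun p _ => by
    unfold cf
    rw [abs_mul]
    exact mul_le_one₀ (mu_le _) (abs_nonneg _) (mu_le _)) T B (fun q hq => by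
      obtain ⟨⟨m, h⟩, ⟨m', h'⟩⟩ := q
      simp only [hP, Finset.mem_product, Finset.mem_Ioc, Finset.mem_Icc] at hq
      obtain ⟨⟨⟨a1, a2⟩, a3, a4⟩, ⟨b1, b2⟩, b3, b4⟩ := hq
      obtain ⟨n, hn⟩ : ∃ n, m = n + h := ⟨m - h, by omega⟩
      obtain ⟨n', hn'⟩ : ∃ n', m' = n' + h' := ⟨m' - h', by omega⟩
      have hn1 : 1 ≤ n := by omega
      have hn1' : 1 ≤ n' := by omega
      subst hn hn'
      have p1 : (0 : ℝ) < n := by exact_mod_cast hn1
      have p2 : (0 : ℝ) < n' := by exact_mod_cast hn1'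
      have p3 : (0 : ℝ) < ((n + h : ℕ) : ℝ) := by exact_mod_cast (show 0 < n + h by omega)
      have p4 : (0 : ℝ) < ((n' + h' : ℕ) : ℝ) := by exact_mod_cast (show 0 < n' + h' by omega)
      have e : fr (n + h, h) - fr (n' + h', h') =
          Real.log ((n : ℝ) * ((n' + h' : ℕ) : ℝ)) - Real.log ((n' : ℝ) * ((n + h : ℕ) : ℝ)) := by
        unfold fr
        simp only [Nat.add_sub_cancel]
        rw [Real.log_mul p1.ne' p4.ne', Real.log_mul p2.ne' p3.ne']
        ring
      have d : (det ((n + h, h), (n' + h', h')) : ℝ) =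
          (n : ℝ) * ((n' + h' : ℕ) : ℝ) - (n' : ℝ) * ((n + h : ℕ) : ℝ) := by
        unfold det
        push_cast
        ring
      simp only [e, B]
      set x : ℝ := (n : ℝ) * ((n' + h' : ℕ) : ℝ) with hx
      set y : ℝ := (n' : ℝ) * ((n + h : ℕ) : ℝ) with hy
      have hx0 : 0 < x := by positivity
      have hy0 : 0 < y := by positivity
      have c1 : (n : ℝ) ≤ (U2 : ℝ) + j := by exact_mod_cast (show n ≤ U2 + j by omega)
      have c2 : (n' : ℝ) ≤ (U2 : ℝ) + j := by exact_mod_cast (show n' ≤ U2 + j by omega)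
      have c3 : ((n + h : ℕ) : ℝ) ≤ (U2 : ℝ) + j := by exact_mod_cast a2
      have c4 : ((n' + h' : ℕ) : ℝ) ≤ (U2 : ℝ) + j := by exact_mod_cast b2
      have hM : 0 < (U2 : ℝ) + j := p1.trans_le c1
      have hxM : x ≤ ((U2 : ℝ) + j) ^ 2 := by
        rw [sq]; exact mul_le_mul c1 c4 p4.le hM.le
      have hyM : y ≤ ((U2 : ℝ) + j) ^ 2 := by
        rw [sq]; exact mul_le_mul c2 c3 p3.le hM.le
      split_ifs with h0
      · have h1 : x = y := by
          have : (det ((n + h, h), (n' + h', h')) : ℝ) = 0 := by exact_mod_cast h0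
          rw [d] at this
          linarith
        rw [h1]
        simp only [sub_self, mul_zero, Real.cos_zero, intervalIntegral.integral_const, smul_eq_mul,
          mul_one]
        rw [abs_of_nonneg (by linarith)]
        linarith
      · have h1 : (det ((n + h, h), (n' + h', h')) : ℝ) ≠ 0 := by exact_mod_cast h0
        have h2 := log_diff hx0 hy0 hxM hyM
        have h3 : 0 < |x - y| := by
          rw [← d]; exact abs_pos.2 h1
        have h4 : 0 < |x - y| / ((U2 : ℝ) + j) ^ 2 := by positivity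
        have h5 : Real.log x - Real.log y ≠ 0 := by
          intro h6
          rw [h6, abs_zero] at h2
          linarith
        refine (int_cos T _ h5).trans ?_
        rw [d]
        calc 2 / |Real.log x - Real.log y| ≤ 2 / (|x - y| / ((U2 : ℝ) + j) ^ 2) :=
              div_le_div_of_nonneg_left (by norm_num) h4 h2
          _ = 2 * ((U2 : ℝ) + j) ^ 2 * (1 / |x - y|) := by
              field_simp)
  refine key.trans (le_of_eq ?_)
  rw [hquad, ← Finset.sum_filter_add_sum_filter_not (P ×ˢ P) (fun p => det p = 0), Finset.mul_sum]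
  congr 1
  · rw [Finset.sum_congr rfl (g := fun _ => T) (fun p hp => by
      simp only [B, (Finset.mem_filter.1 hp).2, if_true])]
    rw [Finset.sum_const, nsmul_eq_mul, mul_comm]
  · apply Finset.sum_congr rfl
    intro p hp
    simp only [B, if_neg (Finset.mem_filter.1 hp).2]

end Pool.Agent.K1H3.GT
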